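import Mathlib

set_option autoImplicit false

namespace Pool.Agent.Results.MP_443384_al.Counter

open Subgroup

/-- double transversals of `H` -/
def DT {G : Type} [Group G] (H : Subgroup G) : Set (Set G) :=
  {T | IsComplement T (H : Set G) ∧ IsComplement (H : Set G) T}

/-- `P_G(H)` -/
noncomputable def P {G : Type} [Group G] (H : Subgroup G) : ℚ :=
  (Nat.card (DT H) : ℚ) / (Nat.card H : ℚ) ^ H.index

lemma lower {G : Type} [Group G] [Finite G] (H N : Subgroup G) [hN : N.Normal] (hle : N ≤ H)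
    (h : G) (hh : h ∈ H) (hH : ∀ x ∈ H, x ∈ N ∨ h⁻¹ * x ∈ N) :
    ∃ k, 2 * k * Nat.card H ≤ Nat.card {x // h * x ≠ x * h} ∧ 2 * k ≤ H.index ∧
      Nat.card H ^ H.index ≤ Nat.card (DT H) * 2 ^ k := by
  classical
  have := Fintype.ofFinite (G ⧸ H)
  let _ : LinearOrder (G ⧸ H) := LinearOrder.lift' _ (Fintype.equivFin (G ⧸ H)).injective
  have nt : ∀ x ∈ N, ∀ c : G ⧸ H, x • c = c := fun x hx c => by
    obtain ⟨g, rfl⟩ := QuotientGroup.mk_surjective c
    exact QuotientGroup.eq.2 (hle (by simpa [mul_assoc] using hN.conj_mem _ (inv_mem hx) g⁻¹))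
  have h2 : ∀ c : G ⧸ H, h • h • c = c := fun c => by
    rcases hH (h * h) (mul_mem hh hh) with e | e
    · rw [← mul_smul, nt _ e]
    · rw [inv_mul_cancel_left] at e; rw [nt _ e, nt _ e]
  let D := {c : G ⧸ H // h • c < c}
  have hD : 2 * Nat.card D ≤ Nat.card {c : G ⧸ H | h • c ≠ c} := by
    rw [two_mul, ← Nat.card_sum]
    refine Nat.card_le_card_of_injective (Sum.elim (fun c => ⟨c.1, c.2.ne⟩)
      fun c => ⟨h • c.1, by simpa [h2] using c.2.ne'⟩) ?_
    rintro (a | a) (b | b) e <;> have e := congrArg Subtype.val e <;> simp only [Sum.elim_inl,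
      Sum.elim_inr] at e
    · exact congrArg _ (Subtype.ext e)
    · have := a.2; rw [e, h2] at this; exact (lt_asymm this b.2).elim
    · have := b.2; rw [← e, h2] at this; exact (lt_asymm this a.2).elim
    · exact congrArg _ (Subtype.ext (MulAction.injective h e))
  refine ⟨Nat.card D, ?_, hD.trans (Nat.card_le_card_of_injective _ Subtype.val_injective), ?_⟩
  · refine (Nat.mul_le_mul_right _ hD).trans ?_
    rw [mul_comm, ← QuotientGroup.card_preimage_mk]
    refine Nat.card_le_card_of_injective (fun x => ⟨x.1, fun e => x.2 ?_⟩) fun a b e =>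
      Subtype.ext (by simpa using e)
    exact QuotientGroup.eq.2 (by simpa [e] using hh)
  let f : (G ⧸ H → H) → G ⧸ H → G := fun u c => c.out * u c
  let b : (G ⧸ H → H) → G ⧸ H → Prop := fun u c => h • c < c ∧ f u c * (f u (h • c))⁻¹ ∈ H
  let F : (G ⧸ H → H) → G ⧸ H → G := fun u c => if b u c then f u c * h else f u c
  have hf : ∀ u c, (f u c : G ⧸ H) = c := fun u c => by simp [f]
  have hF : ∀ u c, (F u c : G ⧸ H) = c := fun u c => by
    simp only [F]; split_ifs
    · rw [QuotientGroup.mk_mul_of_mem _ hh, hf]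
    · exact hf u c
  have key : ∀ u c, h • c < c → F u c * (F u (h • c))⁻¹ ∉ H := fun u c hc k => by
    have e1 : F u (h • c) = f u (h • c) := if_neg fun k => by
      have := k.1; rw [h2] at this; exact lt_asymm this hc
    rw [e1] at k
    by_cases e : b u c
    · rw [show F u c = f u c * h from if_pos e] at k
      have k2 := mul_mem k (inv_mem e.2)
      rw [show f u c * h * (f u (h • c))⁻¹ * (f u c * (f u (h • c))⁻¹)⁻¹ = f u c * h * (f u c)⁻¹ by
        group] at k2
      refine hc.ne ?_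
      rcases hH _ k2 with k3 | k3
      · exact nt _ (by simpa [mul_assoc] using hN.conj_mem _ k3 (f u c)⁻¹) c
      · rw [← hf u c]
        refine QuotientGroup.eq.2 ?_
        have := mul_mem (hle (hN.conj_mem _ k3 (f u c)⁻¹)) (inv_mem hh)
        simpa [mul_assoc] using this
    · rw [show F u c = f u c from if_neg e] at k
      exact e ⟨hc, k⟩
  have dt : ∀ u, Set.range (F u) ∈ DT H := fun u => by
    refine ⟨isComplement_range_left (hF u), isComplement_subgroup_left_iff_bijective.2 ?_⟩
    rw [Nat.bijective_iff_injective_and_card, (isComplement_range_left (hF u)).card_left]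
    refine ⟨?_, (Nat.card_congr (QuotientGroup.quotientRightRelEquivQuotientLeftRel H)).symm⟩
    rintro ⟨_, c, rfl⟩ ⟨_, d, rfl⟩ e
    have e1 : F u d * (F u c)⁻¹ ∈ H := QuotientGroup.rightRel_apply.1 (Quotient.exact' e)
    have e2 : d = (F u d * (F u c)⁻¹) • c := by
      have := MulAction.Quotient.smul_mk H (F u d * (F u c)⁻¹) (F u c)
      rw [hF] at this
      simp [this, hF]
    have : d = c := by
      rcases hH _ e1 with k | k
      · rw [e2, nt _ k]
      · have e3 : d = h • c := by rw [e2, ← mul_inv_cancel_left h (F u d * _), mul_smul, nt _ k]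
        rcases lt_trichotomy d c with l | l | l
        · subst e3; exact (key u c l (by simpa using inv_mem e1)).elim
        · exact l
        · have e4 : c = h • d := by rw [e3, h2]
          subst e4; exact (key u d l e1).elim
    simp [this]
  have := Nat.card_le_card_of_injective (β := DT H × (D → Bool))
    (fun u => (⟨_, dt u⟩, fun c => decide (b u c.1))) fun u v e => by
      have e1 : Set.range (F u) = Set.range (F v) := congrArg (·.1.1) e
      have e2 := congrArg (·.2) e
      funext c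
      obtain ⟨d, hd⟩ := e1.le ⟨c, rfl⟩
      obtain rfl : d = c := by rw [← hF v d, hd, hF]
      have e3 : b u d ↔ b v d := by
        by_cases l : h • d < d
        · simpa using congrFun e2 ⟨d, l⟩
        · simp [b, l]
      simp only [F, e3] at hd
      split_ifs at hd <;> simpa [f, eq_comm] using hd
  simpa [Nat.card_fun, Nat.card_prod, Subgroup.index] using this

/-- the group `C₁₆ ⋊ C₄` of maps `x ↦ 3 ^ i x + b` -/
def G := Fin 16 × Fin 4

instance : DecidableEq G := inferInstanceAs (DecidableEq (Fin 16 × Fin 4))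
instance : Fintype G := inferInstanceAs (Fintype (Fin 16 × Fin 4))

instance : Group G where
  mul x y := (x.1 + 3 ^ x.2.1 * y.1, x.2 + y.2)
  one := (0, 0)
  inv x := (-(11 ^ x.2.1 * x.1), -x.2)
  mul_assoc x y z := by
    have e : ∀ i j : Fin 4, (3 : Fin 16) ^ (i + j).1 = 3 ^ i.1 * 3 ^ j.1 := by decide
    have e2 : ∀ a b c u v : ZMod 16, a + u * b + u * v * c = a + u * (b + v * c) := by
      intros; ring
    refine Prod.ext ?_ (add_assoc _ _ _)
    show x.1 + 3 ^ x.2.1 * y.1 + 3 ^ (x.2 + y.2).1 * z.1 = x.1 + 3 ^ x.2.1 * (y.1 + 3 ^ y.2.1 * z.1)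
    rw [e]; exact e2 _ _ _ _ _
  one_mul := by decide +kernel
  mul_one := by decide +kernel
  inv_mul_cancel := by decide +kernel

def H0 : Subgroup G where
  carrier := {x | x.1 = 0}
  mul_mem' := fun {a b} => by revert a b; decide +kernel
  one_mem' := rfl
  inv_mem' := fun {a} => by revert a; decide +kernel

def key (b : Fin 16) (i : Fin 4) : Fin 16 := 11 ^ i.1 * b

abbrev S2 (b c : Fin 16) := {v : Fin 4 × Fin 4 // key b v.1 ≠ key c v.2}
abbrev S4 (b c d e : Fin 16) := {v : Fin 4 × Fin 4 × Fin 4 × Fin 4 //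
  [key b v.1, key c v.2.1, key d v.2.2.1, key e v.2.2.2].Nodup}

lemma cG : Nat.card G = 64 := by rw [Nat.card_eq_fintype_card]; rfl

lemma upper : P H0 < 1 / 256 := by
  have c1 : Nat.card H0 = 4 := by
    rw [show Nat.card H0 = Nat.card {x : G // x.1 = 0} from rfl, Nat.card_eq_fintype_card]
    decide +kernel
  have c2 : H0.index = 16 := by
    have := H0.card_mul_index; rw [c1, cG] at this; omega
  have h1 : ∀ T : DT H0, ∃ a : Fin 16 → Fin 4, (∀ x : G, x ∈ T.1 ↔ x.2 = a x.1) ∧
      ∀ b c, b ≠ c → key b (a b) ≠ key c (a c) := by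
    rintro ⟨T, h1, h2⟩
    rw [isComplement_iff_existsUnique_inv_mul_mem] at h1
    rw [isComplement_iff_existsUnique_mul_inv_mem] at h2
    have e1 : ∀ x y : G, (x⁻¹ * y).1 = 0 ↔ x.1 = y.1 := by decide +kernel
    have e2 : ∀ x y : G, (x * y⁻¹).1 = 0 ↔ key x.1 x.2 = key y.1 y.2 := by decide +kernel
    choose t ht using fun b : Fin 16 => h1 (b, 0)
    have e3 : ∀ b, (t b).1.1 = b := fun b => (e1 _ _).1 (ht b).1
    have e4 : ∀ x : G, x ∈ T ↔ x.2 = (t x.1).1.2 := fun x =>
      ⟨fun h => by rw [← (ht x.1).2 ⟨x, h⟩ ((e1 _ _).2 rfl)], fun h => by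
        rw [show x = (t x.1).1 from Prod.ext (e3 _).symm h]; exact (t x.1).2⟩
    refine ⟨fun b => (t b).1.2, e4, fun b c n e => n ?_⟩
    have := (h2 (t b).1).unique (y₁ := t b) (y₂ := t c) ((e2 _ _).2 rfl)
      ((e2 _ _).2 (by rwa [e3, e3]))
    rw [← e3 b, this, e3]
  choose a h2 h3 using h1
  have := Nat.card_le_card_of_injective
    (β := Fin 4 × Fin 4 × S2 4 12 × S2 2 6 × S2 10 14 × S4 1 3 9 11 × S4 5 15 13 7)
    (fun T => (a T 0, a T 8, ⟨(a T 4, a T 12), h3 T _ _ (by decide)⟩,
      ⟨(a T 2, a T 6), h3 T _ _ (by decide)⟩, ⟨(a T 10, a T 14), h3 T _ _ (by decide)⟩,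
      ⟨(a T 1, a T 3, a T 9, a T 11), by simp [h3 T]⟩,
      ⟨(a T 5, a T 15, a T 13, a T 7), by simp [h3 T]⟩)) fun T U e => by
      have : a T = a U := by
        simp only [Prod.mk.injEq, Subtype.mk.injEq] at e
        funext i; fin_cases i <;> simp [e]
      exact Subtype.ext (Set.ext fun x => by rw [h2, h2, this])
  have d1 : Fintype.card (S2 4 12) = 8 ∧ Fintype.card (S2 2 6) = 8 ∧ Fintype.card (S2 10 14) = 8 ∧
    Fintype.card (S4 1 3 9 11) = 24 ∧ Fintype.card (S4 5 15 13 7) = 24 := by decide +kernel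
  simp only [Nat.card_prod, Nat.card_eq_fintype_card (α := S2 _ _), d1, Nat.card_fin,
    Nat.card_eq_fintype_card (α := S4 _ _ _ _)] at this
  rw [P, c1, c2, div_lt_iff₀ (by norm_num)]
  exact (Nat.cast_le.2 this).trans_lt (by norm_num)

theorem result : ¬ ∀ (G : Type) [Group G] [Finite G] [Nontrivial G], ∃ p : ℕ, p.Prime ∧
    p ∣ Nat.card G ∧ ∃ H : Subgroup G, IsCyclic H ∧ IsPGroup p H ∧ (∀ K : Subgroup G, P H ≤ P K) ∧
      H.normalCore.relIndex H ≤ p := by
  intro h
  have : Nontrivial G := ⟨(0, 0), (0, 1), by decide⟩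
  obtain ⟨p, hp, h1, H, h2, -, h3, h4⟩ := h G
  obtain rfl : p = 2 := (Nat.prime_dvd_prime_iff_eq hp Nat.prime_two).1
    (hp.dvd_of_dvd_pow (n := 6) (by rwa [cG] at h1))
  obtain ⟨g, rfl⟩ := (Subgroup.isCyclic_iff_exists_zpowers_eq_top H).1 h2
  have g2 : g ^ 2 ∈ (zpowers g).normalCore := by
    have e := pow_relIndex_mem (zpowers g).normalCore (mem_zpowers g)
    have e0 : (zpowers g).normalCore.relIndex (zpowers g) ≠ 0 := index_ne_zero_of_finite
    generalize (zpowers g).normalCore.relIndex (zpowers g) = r at *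
    interval_cases r
    · simp at e0
    · exact pow_mem (by simpa using e) 2
    · exact e
  obtain ⟨k, k1, k2, k3⟩ := lower (zpowers g) _ (normalCore_le _) g (mem_zpowers g) (by
    rintro _ ⟨z, rfl⟩
    rcases Int.even_or_odd' z with ⟨y, rfl | rfl⟩
    · left; simpa [zpow_mul] using zpow_mem g2 y
    · right
      rw [add_comm]; simpa [zpow_mul, zpow_add] using zpow_mem g2 y)
  have c := (zpowers g).card_mul_index
  have k8 : k ≤ 8 := by
    have e : ∀ g : G, g * g = 1 → Fintype.card {x // g * x ≠ x * g} ≤ if g = 1 then 0 else 32 := by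
      decide +kernel
    have e3 : ∀ g : G, g * g * g = 1 → g = 1 := by decide +kernel
    rw [cG] at c
    rw [Nat.card_zpowers] at c k1
    rw [Nat.card_eq_fintype_card] at k1
    have o := pow_orderOf_eq_one g
    have o1 := orderOf_pos g
    by_cases l : 4 ≤ orderOf g
    · nlinarith
    have o2 := orderOf_eq_one_iff (x := g)
    generalize orderOf g = r at *
    have : r < 4 := by omega
    interval_cases r
    · have := e g (by simp [o2.1 rfl]); simp [o2.1 rfl] at k1; omega
    · have := e g (by rwa [← sq]); split_ifs at this <;> omega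
    · omega
  refine (upper.trans_le ?_).not_ge (h3 H0)
  rw [P, le_div_iff₀ (by have := Nat.card_pos (α := zpowers g); positivity)]
  have : (Nat.card (zpowers g) : ℚ) ^ (zpowers g).index ≤ Nat.card (DT (zpowers g)) * 2 ^ 8 := by
    exact_mod_cast k3.trans (Nat.mul_le_mul_left _ (Nat.pow_le_pow_right two_pos k8))
  linarith

end Pool.Agent.Results.MP_443384_al.Counter
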